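import Mathlib

set_option autoImplicit false

/-!
# Maps of short displacement in graphs of large girth
-/

namespace Pool.Agent.V11278.GD

open SimpleGraph

/-- All cycles of `G` have more than `L` vertices. -/
def GirthGT {V : Type} (G : SimpleGraph V) (L : ℕ) : Prop :=
  ∀ (v : V) (c : G.Walk v v), c.IsCycle → L < c.length

/-- There is a path from `u` to `v` whose length is between `a` and `b`. -/
def PathIn {V : Type} (G : SimpleGraph V) (a b : ℕ) (u v : V) : Prop :=
  ∃ p : G.Walk u v, p.IsPath ∧ a ≤ p.length ∧ p.length ≤ b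

theorem uniq {V : Type} {G : SimpleGraph V} {L : ℕ} (hG : GirthGT G L) {u v : V}
    (p q : G.Walk u v) (hp : p.IsPath) (hq : q.IsPath) (h : p.length + q.length ≤ L) : p = q := by
  by_contra hne
  obtain ⟨w, -, -, c, hc, hlen⟩ := hp.exists_isCycle_length_le_add_of_ne hq hne
  have := hG _ c hc
  omega

theorem step {V : Type} {G : SimpleGraph V} {R h : ℕ} (hG : GirthGT G (2 * R + 1 + h))
    {u v x y : V} (huv : G.Adj u v) (p : G.Walk u x) (hp : p.IsPath) (q : G.Walk v y)
    (hq : q.IsPath) (t : G.Walk x y) (ht : t.length ≤ h) (hph : h ≤ p.length)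
    (hpR : p.length ≤ R) (hqR : q.length ≤ R) : p.snd = v ∨ q.snd = u := by
  classical
  by_cases hv : v ∈ p.support
  · left
    have h1 : p.takeUntil v hv = Walk.cons huv Walk.nil := by
      apply uniq hG _ _ (hp.takeUntil hv)
      · rw [Walk.cons_isPath_iff]
        refine ⟨Walk.IsPath.nil, ?_⟩
        rw [Walk.support_nil, List.mem_singleton]
        exact huv.ne
      · have h2 := p.length_takeUntil_le_length hv
        rw [Walk.length_cons, Walk.length_nil]
        omega
    have h3 := p.take_spec hv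
    rw [← h3, h1]
    simp
  · right
    set q0 := (p.append t).bypass with hq0
    have hq0p : q0.IsPath := Walk.bypass_isPath _
    have hq0l : q0.length ≤ R + h := by
      have := (p.append t).length_bypass_le_length
      rw [Walk.length_append] at this
      rw [hq0]
      omega
    have hvq : v ∉ q0.support := by
      intro hmem
      have h1 := (p.append t).support_bypass_subset_support hmem
      rw [Walk.mem_support_append_iff] at h1
      rcases h1 with h1 | h1
      · exact hv h1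
      · have h2 := t.length_takeUntil_le_length h1
        set t' := (t.takeUntil v h1).bypass with ht'
        have h3 : t'.length ≤ h := by
          have := (t.takeUntil v h1).length_bypass_le_length
          rw [ht']
          omega
        have h4 : t'.reverse = Walk.cons huv.symm p := by
          apply uniq hG
          · exact (Walk.bypass_isPath _).reverse
          · rw [Walk.cons_isPath_iff]
            exact ⟨hp, hv⟩
          · rw [Walk.length_reverse, Walk.length_cons]
            omega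
        have h5 := congrArg Walk.length h4
        rw [Walk.length_reverse, Walk.length_cons] at h5
        omega
    have h6 : q = Walk.cons huv.symm q0 := by
      apply uniq hG _ _ hq
      · rw [Walk.cons_isPath_iff]
        exact ⟨hq0p, hvq⟩
      · rw [Walk.length_cons]
        omega
    rw [h6]
    simp

/-- **Maps of short displacement.** -/
theorem main {V : Type} [Finite V] (G : SimpleGraph V) (R h : ℕ)
    (hG : GirthGT G (2 * R + 1 + h)) (A B : Finset V) (f g : V → V)
    (hf : ∀ u ∈ A, PathIn G h R u (f u)) (hg : ∀ v ∈ B, PathIn G 0 R v (g v)) :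
    {x : V × V | x.1 ∈ A ∧ x.2 ∈ B ∧ G.Adj x.1 x.2 ∧
      ∃ t : G.Walk (f x.1) (g x.2), t.length ≤ h}.ncard ≤ A.card + B.card := by
  classical
  let P : ∀ u, u ∈ A → G.Walk u (f u) := fun u hu => (hf u hu).choose
  have hP : ∀ u (hu : u ∈ A), (P u hu).IsPath ∧ h ≤ (P u hu).length ∧ (P u hu).length ≤ R :=
    fun u hu => (hf u hu).choose_spec
  let Q : ∀ v, v ∈ B → G.Walk v (g v) := fun v hv => (hg v hv).choose
  have hQ : ∀ v (hv : v ∈ B), (Q v hv).IsPath ∧ 0 ≤ (Q v hv).length ∧ (Q v hv).length ≤ R :=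
    fun v hv => (hg v hv).choose_spec
  have hsub : {x : V × V | x.1 ∈ A ∧ x.2 ∈ B ∧ G.Adj x.1 x.2 ∧
      ∃ t : G.Walk (f x.1) (g x.2), t.length ≤ h} ⊆
      ((A.attach.image (fun u => (u.1, (P u.1 u.2).snd)) ∪
        B.attach.image (fun v => ((Q v.1 v.2).snd, v.1)) : Finset (V × V)) : Set (V × V)) := by
    rintro ⟨u, v⟩ ⟨hu, hv, huv, t, ht⟩
    rw [Finset.mem_coe, Finset.mem_union]
    rcases step hG huv (P u hu) (hP u hu).1 (Q v hv) (hQ v hv).1 t ht (hP u hu).2.1
      (hP u hu).2.2 (hQ v hv).2.2 with h1 | h1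
    · left
      rw [Finset.mem_image]
      exact ⟨⟨u, hu⟩, Finset.mem_attach _ _, by rw [h1]⟩
    · right
      rw [Finset.mem_image]
      exact ⟨⟨v, hv⟩, Finset.mem_attach _ _, by rw [h1]⟩
  refine (Set.ncard_le_ncard hsub (Finset.finite_toSet _)).trans ?_
  rw [Set.ncard_coe_finset]
  refine (Finset.card_union_le _ _).trans (Nat.add_le_add ?_ ?_)
  · exact Finset.card_image_le.trans (Finset.card_attach).le
  · exact Finset.card_image_le.trans (Finset.card_attach).le

/-- endomorphisms -/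
theorem endo {V : Type} [Fintype V] [DecidableEq V] (G : SimpleGraph V) [DecidableRel G.Adj] (R : ℕ)
    (hG : GirthGT G (2 * R + 2)) (σ : G →g G) (B : Finset V)
    (hB : ∀ v ∈ B, PathIn G 1 R v (σ v)) :
    ∑ v ∈ B, G.degree v ≤ 2 * B.card + ∑ v ∈ Bᶜ, G.degree v := by
  have h1 := main G R 1 hG B B σ σ hB (fun v hv => by
    obtain ⟨p, h1, h2, h3⟩ := hB v hv
    exact ⟨p, h1, Nat.zero_le _, h3⟩)
  -- all the ordered adjacent pairs
  have h2 : ∑ v, G.degree v ≤
      {x : V × V | x.1 ∈ B ∧ x.2 ∈ B ∧ G.Adj x.1 x.2 ∧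
        ∃ t : G.Walk (σ x.1) (σ x.2), t.length ≤ 1}.ncard +
      (∑ v ∈ Bᶜ, G.degree v + ∑ v ∈ Bᶜ, G.degree v) := by
    have e1 : ∑ v, G.degree v = (Finset.univ.sigma (fun v => G.neighborFinset v)).card := by
      rw [Finset.card_sigma]
      rfl
    have e2 : ∑ v ∈ Bᶜ, G.degree v = (Bᶜ.sigma (fun v => G.neighborFinset v)).card := by
      rw [Finset.card_sigma]
      rfl
    rw [e1]
    have e3 : (Finset.univ.sigma (fun v => G.neighborFinset v)).image
        (fun x : (_ : V) × V => (x.1, x.2)) ⊆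
        (Set.toFinite {x : V × V | x.1 ∈ B ∧ x.2 ∈ B ∧ G.Adj x.1 x.2 ∧
          ∃ t : G.Walk (σ x.1) (σ x.2), t.length ≤ 1}).toFinset ∪
        ((Bᶜ.sigma (fun v => G.neighborFinset v)).image (fun x : (_ : V) × V => (x.1, x.2)) ∪
          (Bᶜ.sigma (fun v => G.neighborFinset v)).image
            (fun x : (_ : V) × V => (x.2, x.1))) := by
      intro x hx
      obtain ⟨⟨u, v⟩, h3, rfl⟩ := Finset.mem_image.1 hx
      have huv : G.Adj u v := by
        have := (Finset.mem_sigma.1 h3).2
        rwa [SimpleGraph.mem_neighborFinset] at this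
      rw [Finset.mem_union, Finset.mem_union]
      by_cases hu : u ∈ B
      · by_cases hv : v ∈ B
        · left
          rw [Set.Finite.mem_toFinset]
          exact ⟨hu, hv, huv, Walk.cons (σ.map_adj huv) Walk.nil, by simp⟩
        · right; right
          exact Finset.mem_image.2 ⟨⟨v, u⟩, Finset.mem_sigma.2 ⟨Finset.mem_compl.2 hv, by
            rw [SimpleGraph.mem_neighborFinset]; exact huv.symm⟩, rfl⟩
      · right; left
        exact Finset.mem_image.2 ⟨⟨u, v⟩, Finset.mem_sigma.2 ⟨Finset.mem_compl.2 hu, by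
            rw [SimpleGraph.mem_neighborFinset]; exact huv⟩, rfl⟩
    have e4 := Finset.card_le_card e3
    rw [Finset.card_image_of_injective _ (by
      rintro ⟨a, b⟩ ⟨a', b'⟩ hab
      simp only [Prod.mk.injEq] at hab
      obtain ⟨h5, h6⟩ := hab
      subst h5 h6
      rfl)] at e4
    refine e4.trans ((Finset.card_union_le _ _).trans (Nat.add_le_add ?_ ?_))
    · rw [Set.ncard_eq_toFinset_card _ (Set.toFinite _)]
    · refine (Finset.card_union_le _ _).trans (Nat.add_le_add ?_ ?_)
      · rw [e2]; exact Finset.card_image_le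
      · rw [e2]; exact Finset.card_image_le
  have h3 : ∑ v ∈ B, G.degree v + ∑ v ∈ Bᶜ, G.degree v = ∑ v, G.degree v :=
    Finset.sum_add_sum_compl B _
  omega

/-- endomorphisms of regular graphs -/
theorem regular_endo {V : Type} [Fintype V] (G : SimpleGraph V) [DecidableRel G.Adj] (d R : ℕ)
    (hd : ∀ v, G.degree v = d) (hG : GirthGT G (2 * R + 2)) (σ : G →g G) (B : Finset V)
    (hB : ∀ v ∈ B, PathIn G 1 R v (σ v)) :
    2 * d * B.card ≤ d * Fintype.card V + 2 * B.card := by
  classical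
  have h2 := endo G R hG σ B hB
  have h3 : ∑ v ∈ B, G.degree v = B.card * d := by
    rw [Finset.sum_congr rfl (fun v _ => hd v), Finset.sum_const, smul_eq_mul]
  have h4 : ∑ v ∈ Bᶜ, G.degree v = (Fintype.card V - B.card) * d := by
    rw [Finset.sum_congr rfl (fun v _ => hd v), Finset.sum_const, Finset.card_compl, smul_eq_mul]
  rw [h3, h4] at h2
  have h5 : B.card ≤ Fintype.card V := Finset.card_le_univ _
  obtain ⟨m, hm⟩ := Nat.exists_eq_add_of_le h5
  rw [hm, Nat.add_sub_cancel_left] at h2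
  rw [hm]
  nlinarith

/-- minimum degree at least three -/
theorem exists_moved {V : Type} [Fintype V] [Nonempty V] (G : SimpleGraph V) [DecidableRel G.Adj]
    (R : ℕ) (hd : ∀ v, 3 ≤ G.degree v) (hG : GirthGT G (2 * R + 2)) (σ : G →g G) :
    ∃ v, ¬ PathIn G 1 R v (σ v) := by
  classical
  by_contra hcon
  push Not at hcon
  have h2 := endo G R hG σ Finset.univ (fun v _ => hcon v)
  rw [Finset.compl_univ, Finset.sum_empty, Finset.card_univ] at h2
  have h3 : ∑ _v : V, 3 ≤ ∑ v : V, G.degree v := Finset.sum_le_sum (fun v _ => hd v)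
  rw [Finset.sum_const, Finset.card_univ, smul_eq_mul] at h3
  have h4 : 0 < Fintype.card V := Fintype.card_pos
  omega

/-- dense graphs -/
theorem dense {V : Type} [Finite V] (G : SimpleGraph V) (m : ℕ) (hm : 2 ≤ m)
    (hG : GirthGT G (2 * m)) (c : ℝ) (hc : 0 < c)
    (he : c * (Nat.card V : ℝ) ^ (1 + 1 / (m : ℝ)) ≤ G.edgeSet.ncard) (f g : V → V)
    (hf : ∀ v, PathIn G 1 (m - 1) v (f v)) (hg : ∀ v, PathIn G 0 (m - 1) v (g v)) :
    ({x : V × V | G.Adj x.1 x.2 ∧ (f x.1 = g x.2 ∨ G.Adj (f x.1) (g x.2))}.ncard : ℝ) ≤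
      1 / c * (Nat.card V : ℝ) ^ (-(1 / (m : ℝ))) * (2 * G.edgeSet.ncard) := by
  classical
  have := Fintype.ofFinite V
  have hG' : GirthGT G (2 * (m - 1) + 1 + 1) := by
    have : 2 * (m - 1) + 1 + 1 = 2 * m := by omega
    rw [this]; exact hG
  have h1 := main G (m - 1) 1 hG' Finset.univ Finset.univ f g (fun v _ => hf v)
    (fun v _ => hg v)
  have h2 : {x : V × V | G.Adj x.1 x.2 ∧ (f x.1 = g x.2 ∨ G.Adj (f x.1) (g x.2))}.ncard ≤
      Fintype.card V + Fintype.card V := by
    refine le_trans (Set.ncard_le_ncard ?_ (Set.toFinite _)) h1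
    rintro x ⟨hx, hx2⟩
    refine ⟨Finset.mem_univ _, Finset.mem_univ _, hx, ?_⟩
    rcases hx2 with h | h
    · exact ⟨Walk.nil.copy rfl h, by simp⟩
    · exact ⟨Walk.cons h Walk.nil, by simp⟩
  rw [Nat.card_eq_fintype_card] at he ⊢
  set n := Fintype.card V with hn
  have h3 : ({x : V × V | G.Adj x.1 x.2 ∧
      (f x.1 = g x.2 ∨ G.Adj (f x.1) (g x.2))}.ncard : ℝ) ≤ 2 * n := by
    have : ({x : V × V | G.Adj x.1 x.2 ∧
      (f x.1 = g x.2 ∨ G.Adj (f x.1) (g x.2))}.ncard : ℝ) ≤ ((n + n : ℕ) : ℝ) := by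
      exact_mod_cast h2
    push_cast at this
    linarith
  refine h3.trans ?_
  rcases Nat.eq_zero_or_pos n with h0 | h0
  · rw [h0]
    simp only [Nat.cast_zero, mul_zero]
    positivity
  have hn0 : (0 : ℝ) < n := by exact_mod_cast h0
  have e1 : (n : ℝ) = (n : ℝ) ^ (-(1 / (m : ℝ))) * (n : ℝ) ^ (1 + 1 / (m : ℝ)) := by
    rw [← Real.rpow_add hn0]
    have : -(1 / (m : ℝ)) + (1 + 1 / (m : ℝ)) = 1 := by ring
    rw [this, Real.rpow_one]
  have e2 : (0 : ℝ) ≤ (n : ℝ) ^ (-(1 / (m : ℝ))) := by positivity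
  have e3 : (n : ℝ) ^ (1 + 1 / (m : ℝ)) ≤ 1 / c * G.edgeSet.ncard := by
    rw [div_mul_eq_mul_div, one_mul, le_div_iff₀ hc]
    linarith
  calc 2 * (n : ℝ) = 2 * ((n : ℝ) ^ (-(1 / (m : ℝ))) * (n : ℝ) ^ (1 + 1 / (m : ℝ))) := by
        rw [← e1]
    _ ≤ 2 * ((n : ℝ) ^ (-(1 / (m : ℝ))) * (1 / c * G.edgeSet.ncard)) := by
        have := mul_le_mul_of_nonneg_left e3 e2
        linarith
    _ = _ := by ring

end Pool.Agent.V11278.GD
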